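import Pool.Agent.X10.SP.Lin3

set_option autoImplicit false

/-!
# Simultaneously composite values of `c log X log log X` arbitrary linear forms

Let `a_1 n + b_1, …, a_k n + b_k` be arbitrary linear forms with integer coefficients of size at most
`exp((log X)²)` and with `∑ |a_i| / φ(|a_i|) ≤ c log X log log X` (so up to `c log X log log X` forms if the leading
coefficients are bounded or prime, say). Then every interval of length `X`, wherever it is, contains an integer `n` for
which none of the numbers `|a_i n + b_i|` is prime.

For the forms `n + 1, …, n + k` this is a statement on prime gaps. In general it says that the union of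
`k ≤ c log X log log X` translated (or dilated) copies of the primes has holes in every interval of length `X`; by a
random choice `C (log X)²` translates suffice to cover everything. The Chinese remainder theorem, that is
one prime for each form that is left over by the small primes, gives only `k ≤ c log X`.

Proof. The forms are sieved by the primes up to `log X / 200`; the remaining `c log X` ones are killed by a version of
the covering theorem of helper256 (`Pool.Agent.H256R2.SC.covering`, the engine of `MP_3bc45c_nt.RecordGaps`) with up to
`(log X) ^ 5` exceptional primes, which are the prime factors of the coefficients `a_i` and of the determinants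
`a_i b_j - a_j b_i`.
-/

namespace Pool.Agent.Results.MP_028722_nt.CompositeLinearForms

/-- There is an absolute constant `c > 0` such that for all large `X` and all linear forms `a_i n + b_i` (`i < k`) with
`a_i ≠ 0`, `|a_i|, |b_i| ≤ exp((log X)²)` and `∑ |a_i| / φ(|a_i|) ≤ c log X log log X`, every interval `(M, M + X]` contains
an integer `n` for which none of the `|a_i n + b_i|` is prime. -/
theorem result : ∃ c : ℝ, 0 < c ∧ ∃ X₀ : ℕ, ∀ X : ℕ, X₀ ≤ X → ∀ (k : ℕ) (a b : Fin k → ℤ),
    (∀ i, a i ≠ 0) → (∀ i, (|a i| : ℝ) ≤ Real.exp (Real.log X ^ 2)) →
    (∀ i, (|b i| : ℝ) ≤ Real.exp (Real.log X ^ 2)) →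
    ∑ i, ((a i).natAbs : ℝ) / (Nat.totient (a i).natAbs : ℝ) ≤ c * (Real.log X * Real.log (Real.log X)) →
    ∀ M : ℤ, ∃ n : ℤ, M < n ∧ n ≤ M + X ∧ ∀ i, ¬ (a i * n + b i).natAbs.Prime :=
  Pool.Agent.X10.SP.Lin.lin

end Pool.Agent.Results.MP_028722_nt.CompositeLinearForms
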