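import Pool.Agent.X33.MD.Final

set_option autoImplicit false

/-! # Dilates of arbitrary sequences meet the record gaps: the dimension of the exceptional set

Let `a n` be any real sequence of polynomial growth, `n ^ (ρ - 1) ≤ a (n + 1) - a n` and
`|a n| ≤ n ^ C`, and `b n` any real sequence. For all real `α` outside a set of Hausdorff dimension
at most `1 - ρ / C`, the sequence `α a n + b n` and all its translates (uniformly in the translation)
have many members in the middle of prime gaps of record length `log M (log₂ M)² log₄ M / (log₃ M)²`.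
For integer sequences `a n = n ^ (1 + o(1))`, for instance the primes, the exceptional set has
dimension zero. The same holds for almost all `α` with respect to every finite measure whose Fourier
transform decays like a power. This is the analogue of the theorem of Erdős and Taylor on the uniform
distribution of `α a n`.

Proof: the mean square over `α` of the exponential sums of a block with frequencies `h / q`; a grid of
cells whose mesh is adapted to the growth of `a n`, of which few contain a bad parameter; the covering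
sieve of `MP_3bc45c_nt.RecordGaps` (helper256's team), in the form of `Pool/Agent/TH915/PW`. -/

namespace Pool.Agent.Results.MP_028722_nt.ExceptionalDilates

open Filter MeasureTheory

/-- The length of the record gaps: `log x (log₂ x)² log₄ x / (log₃ x)²`. -/
noncomputable def recLen (x : ℝ) : ℝ :=
  Real.log x * (Real.log (Real.log x)) ^ 2 * Real.log (Real.log (Real.log (Real.log x))) /
    (Real.log (Real.log (Real.log x))) ^ 2

/-- `u` and its translates meet the record gaps: for all `M ≥ M₀` and all real `β` for which the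
numbers `u n + β`, `M < n ≤ 4 M`, are at least `M ^ ε`, at least `M ^ (1 - ε)` of these `n` have no
prime within `κ recLen M` of `u n + β`. -/
def MeetsRecordGaps (κ ε : ℝ) (u : ℕ → ℝ) : Prop :=
  ∃ M₀ : ℝ, ∀ M : ℝ, M₀ ≤ M → ∀ β : ℝ, (∀ n : ℕ, M < n → (n : ℝ) ≤ 4 * M → M ^ ε ≤ u n + β) →
    M ^ (1 - ε) ≤ ({n : ℕ | M < n ∧ (n : ℝ) ≤ 4 * M ∧
      ∀ q : ℕ, q.Prime → κ * recLen M < |(q : ℝ) - (u n + β)|}.ncard : ℝ)

/-- (1) uniform constant: for `0 < ρ ≤ 1`, `ε > 0`, `C ≥ 0` and `s > 0` with `C (1 - s) < ρ` there is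
`κ > 0` such that the exceptional set of every sequence of separation `n ^ (ρ - 1)` and growth `n ^ C`
has dimension at most `s`. (2) For separation `n ^ (ρ - 1 - o(1))` and growth `n ^ (C + o(1))` the set of all
`α` for which it is not true that for every `ε` there is a `κ`, has dimension at most `1 - ρ / C`.
(3) Almost all `α` for measures with a decaying Fourier transform. (4) For the sequence of the primes
the exceptional set has dimension zero and is not empty. -/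
theorem result :
    (∀ ρ ε C s : ℝ, 0 < ρ → ρ ≤ 1 → 0 < ε → 0 ≤ C → 0 < s → C * (1 - s) < ρ →
      ∃ κ : ℝ, 0 < κ ∧ ∀ a b : ℕ → ℝ,
        (∀ᶠ n : ℕ in atTop, (n : ℝ) ^ (ρ - 1) ≤ a (n + 1) - a n) →
        (∀ᶠ n : ℕ in atTop, |a n| ≤ (n : ℝ) ^ C) →
        dimH {α : ℝ | ¬ MeetsRecordGaps κ ε (fun n => α * a n + b n)} ≤ ENNReal.ofReal s) ∧
    (∀ ρ C : ℝ, 0 < ρ → ρ ≤ 1 → 0 < C → ∀ a b : ℕ → ℝ,
      (∀ δ : ℝ, 0 < δ → ∀ᶠ n : ℕ in atTop, (n : ℝ) ^ (ρ - δ - 1) ≤ a (n + 1) - a n) →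
      (∀ δ : ℝ, 0 < δ → ∀ᶠ n : ℕ in atTop, |a n| ≤ (n : ℝ) ^ (C + δ)) →
      dimH {α : ℝ | ¬ ∀ ε : ℝ, 0 < ε → ∃ κ : ℝ, 0 < κ ∧
        MeetsRecordGaps κ ε (fun n => α * a n + b n)} ≤ ENNReal.ofReal (1 - ρ / C)) ∧
    (∀ ρ ε τ : ℝ, 0 < ρ → ρ ≤ 1 → 0 < ε → 0 < τ →
      ∃ κ : ℝ, 0 < κ ∧ ∀ (μ : Measure ℝ) [IsFiniteMeasure μ] (C : ℝ),
        (∀ ξ : ℝ, 1 ≤ |ξ| →
          ‖∫ x, Complex.exp (((2 * Real.pi * (ξ * x) : ℝ) : ℂ) * Complex.I) ∂μ‖ ≤
            C * |ξ| ^ (-τ)) →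
        ∀ a b : ℕ → ℝ, (∀ᶠ n : ℕ in atTop, (n : ℝ) ^ (ρ - 1) ≤ a (n + 1) - a n) →
        ∀ᵐ α ∂μ, MeetsRecordGaps κ ε (fun n => α * a n + b n)) ∧
    (dimH {α : ℝ | ¬ ∀ ε : ℝ, 0 < ε → ∃ κ : ℝ, 0 < κ ∧
        MeetsRecordGaps κ ε (fun n => α * (Nat.nth Nat.Prime n : ℕ))} = 0 ∧
      (1 : ℝ) ∈ {α : ℝ | ¬ ∀ ε : ℝ, 0 < ε → ∃ κ : ℝ, 0 < κ ∧
        MeetsRecordGaps κ ε (fun n => α * (Nat.nth Nat.Prime n : ℕ))}) :=
  ⟨fun ρ ε C s hρ hρ1 hε hC hs h => Pool.Agent.X33.MD.dim_one ρ ε C s hρ hρ1 hε hC hs h,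
    fun ρ C hρ hρ1 hC a b ha haC => Pool.Agent.X33.MD.dim_two ρ C hρ hρ1 hC a b ha haC,
    fun ρ ε τ hρ hρ1 hε hτ => Pool.Agent.X33.MD.ae_meets ρ ε τ hρ hρ1 hε hτ,
    Pool.Agent.X33.MD.dim_primes⟩

end Pool.Agent.Results.MP_028722_nt.ExceptionalDilates
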