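import Pool.Agent.X10.ML.Forms

set_option autoImplicit false

/-!
# Mills sequences at which arbitrary families of linear forms take only composite values

Let `c > 1` be any real number and, for every `n`, let `a_(n,i) m + b_(n,i)` (`i < k_n`) be an arbitrary family of
integral linear forms with `log |a|, log |b| = o(c ^ (2 n))` and `∑ |a| / φ(|a|) = o(n c ^ n)`. For `θ > 1` let `N_n`
be the integer part of `θ ^ (c ^ n)`, so that `log N_n` has the order `c ^ n` and `log log N_n` the order `n`. The `θ`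
for which none of the `|a_(n,i) N_n + b_(n,i)|`, `i < k_n`, is prime, for all large `n`, form a set of Hausdorff
dimension `1` in each interval of `(1, ∞)`. For the forms `m + b`: `N_n + B_n` is free of primes, for arbitrary sets `B_n`
of `o(log N_n log log N_n)` integers.
-/

open Filter

namespace Pool.Agent.Results.MP_028722_nt.MillsSequencesCompositeForms

/-- Let `c > 1`, and let the linear forms `a n i * m + b n i` (`i < k n`) satisfy `a n i ≠ 0`,
`|a n i|, |b n i| ≤ exp (o (c ^ (2 n)))` and `∑_i |a n i| / φ(|a n i|) = o (n c ^ n)`. Then in every open set `U`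
that meets `(1, ∞)` the `θ > 1` such that for all large `n` none of the `|a n i * N + b n i|`, where `N` is the
integer part of `θ ^ (c ^ n)`, is prime, form a set of Hausdorff dimension `1`. -/
theorem result (c : ℝ) (hc : 1 < c) (k : ℕ → ℕ) (a b : (n : ℕ) → Fin (k n) → ℤ)
    (ha : ∀ n i, a n i ≠ 0)
    (hsize : ∀ ε : ℝ, 0 < ε → ∀ᶠ n : ℕ in atTop, ∀ i,
      (|a n i| : ℝ) ≤ Real.exp (ε * c ^ (2 * n)) ∧ (|b n i| : ℝ) ≤ Real.exp (ε * c ^ (2 * n)))
    (hsum : ∀ ε : ℝ, 0 < ε → ∀ᶠ n : ℕ in atTop,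
      ∑ i, ((a n i).natAbs : ℝ) / (Nat.totient (a n i).natAbs : ℝ) ≤ ε * (n * c ^ n))
    (U : Set ℝ) (hU : IsOpen U) (hne : (U ∩ Set.Ioi 1).Nonempty) :
    dimH {θ : ℝ | θ ∈ U ∧ 1 < θ ∧ ∃ n₀ : ℕ, ∀ n : ℕ, n₀ ≤ n →
      ∀ i, ¬ (a n i * (⌊θ ^ (c ^ n)⌋₊ : ℤ) + b n i).natAbs.Prime} = 1 :=
  Pool.Agent.X10.ML.forms c hc k a b ha hsize hsum U hU hne

end Pool.Agent.Results.MP_028722_nt.MillsSequencesCompositeForms
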