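import Pool.Agent.X33.RW.Int

set_option autoImplicit false

/-! # Random walks cannot avoid the record gaps

Almost surely, in every window `a < n ≤ a + N ^ ε`, `a ≤ N`, of a random walk `S n`, and for all
translations `β` simultaneously, at least `N ^ (ε - ε')` of the numbers `S n + β` lie in the middle of a
prime gap of record length `log N (log₂ N)² log₄ N / (log₃ N)²`.

Proof: let `φ i` be the characteristic function of the step `ξ i` at `θ = h / q`, and `U` a bounded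
solution of `U k = 1 + φ k U (k + 1)` (`1 / (1 - φ)` for identically distributed steps). Then
`∑ e (θ S n)` over a window is, up to `2 ‖U‖`, a martingale with bounded differences, and its exponential
moments are bounded. For integer steps `|1 - φ (h / q)|` is at least `c / q ^ 2` as soon as the support
generates `ℤ`. The covering sieve of `MP_3bc45c_nt.RecordGaps` (helper256's team), in the form of
`Pool/Agent/TH915/PW`, then applies in every window. -/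

namespace Pool.Agent.Results.MP_028722_nt.RandomWalks

open Filter MeasureTheory ProbabilityTheory

/-- The length of the record gaps: `log x (log₂ x)² log₄ x / (log₃ x)²`. -/
noncomputable def recLen (x : ℝ) : ℝ :=
  Real.log x * (Real.log (Real.log x)) ^ 2 * Real.log (Real.log (Real.log (Real.log x))) /
    (Real.log (Real.log (Real.log x))) ^ 2

/-- If the numbers `u n`, `a < n ≤ a + N ^ ε`, are at least `N ^ ε`, then for at least `N ^ (ε - ε')`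
of these `n` there is no prime within `κ recLen N` of `u n`. -/
def Window (κ ε ε' : ℝ) (N a : ℕ) (u : ℕ → ℝ) : Prop :=
  (∀ n : ℕ, a < n → (n : ℝ) ≤ a + (N : ℝ) ^ ε → (N : ℝ) ^ ε ≤ u n) →
    (N : ℝ) ^ (ε - ε') ≤ ({n : ℕ | a < n ∧ (n : ℝ) ≤ a + (N : ℝ) ^ ε ∧
      ∀ q : ℕ, q.Prime → κ * recLen N < |(q : ℝ) - u n|}.ncard : ℝ)

/-- (1) independent, identically distributed integer steps whose support generates `ℤ`;
(2) independent integer steps that avoid every residue class with probability at least `c`;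
(3), (4) the same for real steps, under a lower bound for `|1 - φ (h / q)|` and an upper bound for
`|φ (h / q)|`, respectively. -/
theorem result :
    (∀ ε ε' : ℝ, 0 < ε → 0 < ε' → ∃ κ : ℝ, 0 < κ ∧
      ∀ (Ω : Type) [MeasurableSpace Ω] (μ : Measure Ω) [IsProbabilityMeasure μ] (ξ : ℕ → Ω → ℤ),
      (∀ i, Measurable (ξ i)) → iIndepFun ξ μ → (∀ i, IdentDistrib (ξ i) (ξ 0) μ μ) →
      (∀ d : ℕ, (∀ᵐ ω ∂μ, (d : ℤ) ∣ ξ 0 ω) → d = 1) →
      ∀ᵐ ω ∂μ, ∀ᶠ N : ℕ in atTop, ∀ a ≤ N, ∀ β : ℤ,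
        Window κ ε ε' N a (fun n => ((∑ i ∈ Finset.range n, ξ i ω + β : ℤ) : ℝ))) ∧
    (∀ ε ε' : ℝ, 0 < ε → 0 < ε' → ∃ κ : ℝ, 0 < κ ∧
      ∀ (Ω : Type) [MeasurableSpace Ω] (μ : Measure Ω) [IsProbabilityMeasure μ] (ξ : ℕ → Ω → ℤ),
      (∀ i, Measurable (ξ i)) → iIndepFun ξ μ →
      (∃ c : ℝ, 0 < c ∧ ∀ (i d : ℕ) (r : ℤ), 2 ≤ d → c ≤ μ.real {ω | ¬ (d : ℤ) ∣ ξ i ω - r}) →
      ∀ᵐ ω ∂μ, ∀ᶠ N : ℕ in atTop, ∀ a ≤ N, ∀ β : ℤ,
        Window κ ε ε' N a (fun n => ((∑ i ∈ Finset.range n, ξ i ω + β : ℤ) : ℝ))) ∧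
    (∀ (ε ε' : ℝ) (A : ℕ), 0 < ε → 0 < ε' → ∃ κ : ℝ, 0 < κ ∧
      ∀ (Ω : Type) [MeasurableSpace Ω] (μ : Measure Ω) [IsProbabilityMeasure μ] (ξ : ℕ → Ω → ℝ),
      (∀ i, Measurable (ξ i)) → iIndepFun ξ μ → (∀ i, IdentDistrib (ξ i) (ξ 0) μ μ) →
      (∃ c : ℝ, 0 < c ∧ ∀ h q : ℕ, 1 ≤ h → 1 ≤ q → c ≤
        ‖1 - ∫ ω, Complex.exp (((2 * Real.pi * ((h : ℝ) / q * ξ 0 ω) : ℝ) : ℂ) * Complex.I) ∂μ‖ *
          ((h : ℝ) * q) ^ A) →
      ∀ᵐ ω ∂μ, ∀ᶠ N : ℕ in atTop, ∀ a ≤ N, ∀ β : ℝ,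
        Window κ ε ε' N a (fun n => ∑ i ∈ Finset.range n, ξ i ω + β)) ∧
    (∀ (ε ε' : ℝ) (A : ℕ), 0 < ε → 0 < ε' → ∃ κ : ℝ, 0 < κ ∧
      ∀ (Ω : Type) [MeasurableSpace Ω] (μ : Measure Ω) [IsProbabilityMeasure μ] (ξ : ℕ → Ω → ℝ),
      (∀ i, Measurable (ξ i)) → iIndepFun ξ μ →
      (∃ c : ℝ, 0 < c ∧ ∀ h q i : ℕ, 1 ≤ h → 1 ≤ q →
        ‖∫ ω, Complex.exp (((2 * Real.pi * ((h : ℝ) / q * ξ i ω) : ℝ) : ℂ) * Complex.I) ∂μ‖ ≤
          1 - c / ((h : ℝ) * q) ^ A) →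
      ∀ᵐ ω ∂μ, ∀ᶠ N : ℕ in atTop, ∀ a ≤ N, ∀ β : ℝ,
        Window κ ε ε' N a (fun n => ∑ i ∈ Finset.range n, ξ i ω + β)) :=
  ⟨fun ε ε' hε hε' => Pool.Agent.X33.RW.walk_int_iid ε ε' hε hε',
    fun ε ε' hε hε' => Pool.Agent.X33.RW.walk_int_ind ε ε' hε hε',
    fun ε ε' A hε hε' => Pool.Agent.X33.RW.walk_real_iid ε ε' A hε hε',
    fun ε ε' A hε hε' => Pool.Agent.X33.RW.walk_real_ind ε ε' A hε hε'⟩

end Pool.Agent.Results.MP_028722_nt.RandomWalks
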